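import Mathlib

/-!
# The order type of points with very fast growing heights

`x` is the horizontal position and `τ` the time of a vertex; a later vertex is much higher.
-/

namespace Pool.Agent.MP7a5e6cPO

variable {V : Type*}

/-- `m` is strictly between `c` and `d` horizontally. -/
def Btw (x : V → ℝ) (c d m : V) : Prop := (x c < x m ∧ x m < x d) ∨ (x d < x m ∧ x m < x c)

/-- `m` is strictly below the segment `c d`. -/
def Und (x : V → ℝ) (τ : V → ℕ) (c d m : V) : Prop := Btw x c d m ∧ (τ m < τ c ∨ τ m < τ d)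

/-- `m` is strictly above the segment `c d`. -/
def Ovr (x : V → ℝ) (τ : V → ℕ) (c d m : V) : Prop := Btw x c d m ∧ τ c < τ m ∧ τ d < τ m

/-- The segments `a b` and `c d` cross. -/
def Cr (x : V → ℝ) (τ : V → ℕ) (a b c d : V) : Prop :=
  ((Und x τ c d a ∨ Und x τ c d b) ∧ (Und x τ a b c ∨ Und x τ a b d)) ∨
  (Und x τ a b c ∧ Ovr x τ a b d) ∨ (Ovr x τ a b c ∧ Und x τ a b d) ∨
  (Und x τ c d a ∧ Ovr x τ c d b) ∨ (Ovr x τ c d a ∧ Und x τ c d b)

end Pool.Agent.MP7a5e6cPO
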