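import Pool.Agent.Lib.MP_7a5e6c_co_PO.Base

/-!
# Points with very fast growing heights realise the order type
-/

namespace Pool.Agent.MP7a5e6cPO

/-- The point of the vertex `v`: horizontal position `x v`, height `ε M ^ τ v`. -/
noncomputable def pt {V : Type*} (x : V → ℝ) (τ : V → ℕ) (M ε : ℝ) (v : V) :
    EuclideanSpace ℝ (Fin 2) := !₂[x v, ε * M ^ τ v]

/-- Height at `t` of the line through `(xa, ya)` and `(xb, yb)`. -/
private noncomputable def lin (xa ya xb yb t : ℝ) : ℝ :=
  (ya * (xb - t) + yb * (t - xa)) / (xb - xa)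

private theorem mem_seg {xa ya xb yb : ℝ} (h : xa < xb) (p : EuclideanSpace ℝ (Fin 2)) :
    p ∈ segment ℝ (!₂[xa, ya] : EuclideanSpace ℝ (Fin 2)) !₂[xb, yb] ↔
      (xa ≤ p 0 ∧ p 0 ≤ xb) ∧ p 1 = lin xa ya xb yb (p 0) := by
  have hd : 0 < xb - xa := sub_pos.2 h
  have hd' : xb - xa ≠ 0 := hd.ne'
  constructor
  · rintro ⟨s, t, hs, ht, hst, rfl⟩
    have h0 : (s • (!₂[xa, ya] : EuclideanSpace ℝ (Fin 2)) + t • !₂[xb, yb]) 0
        = s * xa + t * xb := by simp
    have h1 : (s • (!₂[xa, ya] : EuclideanSpace ℝ (Fin 2)) + t • !₂[xb, yb]) 1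
        = s * ya + t * yb := by simp
    rw [h0, h1]
    have hs' : s = 1 - t := by linarith
    subst hs'
    refine ⟨⟨by nlinarith, by nlinarith⟩, ?_⟩
    rw [lin, eq_div_iff hd']
    ring
  · rintro ⟨⟨h1, h2⟩, h3⟩
    refine ⟨(xb - p 0) / (xb - xa), (p 0 - xa) / (xb - xa), div_nonneg (by linarith) hd.le,
      div_nonneg (by linarith) hd.le, ?_, ?_⟩
    · rw [← add_div, div_eq_one_iff_eq hd']
      ring
    · ext i
      fin_cases i
      · simp only [Fin.zero_eta, PiLp.add_apply, PiLp.smul_apply, smul_eq_mul]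
        simp
        field_simp
        ring
      · simp only [Fin.mk_one, PiLp.add_apply, PiLp.smul_apply, smul_eq_mul]
        rw [h3, lin]
        simp
        field_simp

private theorem lin_left {xa ya xb yb : ℝ} (h : xa < xb) : lin xa ya xb yb xa = ya := by
  have hd' : xb - xa ≠ 0 := (sub_pos.2 h).ne'
  rw [lin, div_eq_iff hd']
  ring

private theorem lin_right {xa ya xb yb : ℝ} (h : xa < xb) : lin xa ya xb yb xb = yb := by
  have hd' : xb - xa ≠ 0 := (sub_pos.2 h).ne'
  rw [lin, div_eq_iff hd']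
  ring

private theorem lin_aff (xa ya xb yb : ℝ) : ∃ α β : ℝ, ∀ t, lin xa ya xb yb t = α + β * t := by
  refine ⟨(ya * xb - yb * xa) / (xb - xa), (yb - ya) / (xb - xa), fun t => ?_⟩
  rw [lin]
  ring

/-- An affine function with opposite signs at the ends of an interval has a zero inside. -/
private theorem zero_of {f g : ℝ → ℝ} (hf : ∃ α β : ℝ, ∀ t, f t = α + β * t)
    (hg : ∃ α β : ℝ, ∀ t, g t = α + β * t) {u w : ℝ} (huw : u < w)
    (h : (f u < g u ∧ g w < f w) ∨ (g u < f u ∧ f w < g w)) :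
    ∃ t, u < t ∧ t < w ∧ f t = g t := by
  obtain ⟨α, β, hf⟩ := hf
  obtain ⟨γ, δ, hg⟩ := hg
  simp only [hf, hg] at h ⊢
  have hne : δ - β ≠ 0 := by
    intro h0
    have : δ = β := by linarith
    subst this
    rcases h with ⟨h1, h2⟩ | ⟨h1, h2⟩ <;> linarith
  refine ⟨(α - γ) / (δ - β), ?_, ?_, ?_⟩
  · rcases lt_or_gt_of_ne hne with hn | hn
    · rw [lt_div_iff_of_neg hn]
      rcases h with ⟨h1, h2⟩ | ⟨h1, h2⟩ <;> nlinarith
    · rw [lt_div_iff₀ hn]
      rcases h with ⟨h1, h2⟩ | ⟨h1, h2⟩ <;> nlinarith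
  · rcases lt_or_gt_of_ne hne with hn | hn
    · rw [div_lt_iff_of_neg hn]
      rcases h with ⟨h1, h2⟩ | ⟨h1, h2⟩ <;> nlinarith
    · rw [div_lt_iff₀ hn]
      rcases h with ⟨h1, h2⟩ | ⟨h1, h2⟩ <;> nlinarith
  · field_simp
    ring

/-- Affine functions with the same strict order at both ends of an interval do not meet in it. -/
private theorem no_zero {f g : ℝ → ℝ} (hf : ∃ α β : ℝ, ∀ t, f t = α + β * t)
    (hg : ∃ α β : ℝ, ∀ t, g t = α + β * t) {u w t : ℝ} (hut : u ≤ t) (htw : t ≤ w)
    (h : (f u < g u ∧ f w < g w) ∨ (g u < f u ∧ g w < f w)) : f t ≠ g t := by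
  obtain ⟨α, β, hf⟩ := hf
  obtain ⟨γ, δ, hg⟩ := hg
  simp only [hf, hg] at h ⊢
  intro he
  have hk : α - γ = (δ - β) * t := by linarith
  rcases h with ⟨h1, h2⟩ | ⟨h1, h2⟩
  · have e1 : (δ - β) * t < (δ - β) * u := by linarith
    have e2 : (δ - β) * t < (δ - β) * w := by linarith
    rcases le_total (δ - β) 0 with hn | hn
    · nlinarith
    · nlinarith
  · have e1 : (δ - β) * u < (δ - β) * t := by linarith
    have e2 : (δ - β) * w < (δ - β) * t := by linarith
    rcases le_total (δ - β) 0 with hn | hn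
    · nlinarith
    · nlinarith

/-- Affine functions which meet at one point and not at another one. -/
private theorem one_zero {f g : ℝ → ℝ} (hf : ∃ α β : ℝ, ∀ t, f t = α + β * t)
    (hg : ∃ α β : ℝ, ∀ t, g t = α + β * t) {u w t : ℝ} (hu : f u = g u) (hw : f w ≠ g w)
    (ht : f t = g t) : t = u := by
  obtain ⟨α, β, hf⟩ := hf
  obtain ⟨γ, δ, hg⟩ := hg
  simp only [hf, hg] at hu hw ht
  by_contra hne
  have h1 : (δ - β) * (t - u) = 0 := by linarith
  rcases mul_eq_zero.1 h1 with h2 | h2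
  · apply hw
    have : δ = β := by linarith
    subst this
    linarith
  · exact hne (by linarith)

private theorem und_comm {V : Type*} (x : V → ℝ) (τ : V → ℕ) (a b m : V) :
    Und x τ b a m ↔ Und x τ a b m := and_congr or_comm or_comm

private theorem ovr_comm {V : Type*} (x : V → ℝ) (τ : V → ℕ) (a b m : V) :
    Ovr x τ b a m ↔ Ovr x τ a b m := and_congr or_comm and_comm

private theorem cr_left {V : Type*} (x : V → ℝ) (τ : V → ℕ) (a b c d : V) :
    Cr x τ b a c d ↔ Cr x τ a b c d := by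
  unfold Cr
  rw [und_comm x τ a b c, und_comm x τ a b d, ovr_comm x τ a b c, ovr_comm x τ a b d]
  generalize Und x τ c d a = p1
  generalize Und x τ c d b = p2
  generalize Ovr x τ c d a = p3
  generalize Ovr x τ c d b = p4
  generalize Und x τ a b c = q1
  generalize Und x τ a b d = q2
  generalize Ovr x τ a b c = q3
  generalize Ovr x τ a b d = q4
  constructor
  · rintro (⟨h1 | h1, h2⟩ | h | h | h | h) <;> simp [*]
  · rintro (⟨h1 | h1, h2⟩ | h | h | h | h) <;> simp [*]

private theorem cr_swap {V : Type*} (x : V → ℝ) (τ : V → ℕ) (a b c d : V) :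
    Cr x τ c d a b ↔ Cr x τ a b c d := by
  unfold Cr
  generalize Und x τ c d a = p1
  generalize Und x τ c d b = p2
  generalize Ovr x τ c d a = p3
  generalize Ovr x τ c d b = p4
  generalize Und x τ a b c = q1
  generalize Und x τ a b d = q2
  generalize Ovr x τ a b c = q3
  generalize Ovr x τ a b d = q4
  constructor
  · rintro (⟨h1, h2⟩ | h | h | h | h) <;> simp [*]
  · rintro (⟨h1, h2⟩ | h | h | h | h) <;> simp [*]

private theorem cr_right {V : Type*} (x : V → ℝ) (τ : V → ℕ) (a b c d : V) :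
    Cr x τ a b d c ↔ Cr x τ a b c d := by
  rw [cr_swap x τ d c a b, cr_left x τ c d a b, cr_swap]

private theorem btw_iff {V : Type*} {x : V → ℝ} {a b : V} (h : x a < x b) (m : V) :
    Btw x a b m ↔ x a < x m ∧ x m < x b := by
  constructor
  · rintro (h1 | h1)
    · exact h1
    · exact absurd (h1.1.trans h1.2) (not_lt.2 h.le)
  · exact Or.inl

private theorem meet {n : ℕ} (x : Fin n → ℝ) (hx : Function.Injective x) (τ : Fin n → ℕ)
    (hτ : Function.Injective τ) (Y : Fin n → ℝ)
    (hU : ∀ a b m, x a < x m → x m < x b → (τ m < τ a ∨ τ m < τ b) →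
      Y m < lin (x a) (Y a) (x b) (Y b) (x m))
    (hO : ∀ a b m, x a < x m → x m < x b → τ a < τ m ∧ τ b < τ m →
      lin (x a) (Y a) (x b) (Y b) (x m) < Y m)
    (a b c d : Fin n) (hab : x a < x b) (hcd : x c < x d) (hac : x a ≤ x c)
    (hne : s(a, b) ≠ s(c, d)) :
    (segment ℝ (!₂[x a, Y a] : EuclideanSpace ℝ (Fin 2)) !₂[x b, Y b] ∩
        segment ℝ (!₂[x c, Y c] : EuclideanSpace ℝ (Fin 2)) !₂[x d, Y d] ⊆
      (({!₂[x a, Y a], !₂[x b, Y b]} : Set (EuclideanSpace ℝ (Fin 2))) ∩
        {!₂[x c, Y c], !₂[x d, Y d]})) ↔ ¬ Cr x τ a b c d := by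
  set f := lin (x a) (Y a) (x b) (Y b) with hf
  set g := lin (x c) (Y c) (x d) (Y d) with hg
  have af : ∃ α β : ℝ, ∀ t, f t = α + β * t := lin_aff _ _ _ _
  have ag : ∃ α β : ℝ, ∀ t, g t = α + β * t := lin_aff _ _ _ _
  have fa : f (x a) = Y a := lin_left hab
  have fb : f (x b) = Y b := lin_right hab
  have gc : g (x c) = Y c := lin_left hcd
  have gd : g (x d) = Y d := lin_right hcd
  have tri : ∀ u v m, x u < x m → x m < x v →
      (τ m < τ u ∨ τ m < τ v) ∨ (τ u < τ m ∧ τ v < τ m) := by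
    intro u v m h1 h2
    have h3 : τ m ≠ τ u := fun h => by
      rw [hτ h] at h1
      exact lt_irrefl _ h1
    have h4 : τ m ≠ τ v := fun h => by
      rw [hτ h] at h2
      exact lt_irrefl _ h2
    omega
  have hsub : (segment ℝ (!₂[x a, Y a] : EuclideanSpace ℝ (Fin 2)) !₂[x b, Y b] ∩
        segment ℝ (!₂[x c, Y c] : EuclideanSpace ℝ (Fin 2)) !₂[x d, Y d] ⊆
      (({!₂[x a, Y a], !₂[x b, Y b]} : Set (EuclideanSpace ℝ (Fin 2))) ∩
        {!₂[x c, Y c], !₂[x d, Y d]})) ↔
      ∀ t, x c ≤ t → t ≤ x b → t ≤ x d → f t = g t →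
        (t = x a ∨ t = x b) ∧ (t = x c ∨ t = x d) := by
    constructor
    · intro h t h1 h2 h3 h4
      have hp := @h (!₂[t, f t] : EuclideanSpace ℝ (Fin 2)) ⟨(mem_seg hab _).2
        ⟨⟨hac.trans h1, h2⟩, rfl⟩, (mem_seg hcd _).2 ⟨⟨h1, h3⟩, h4⟩⟩
      obtain ⟨hp1, hp2⟩ := hp
      constructor
      · rcases hp1 with hp1 | hp1
        · left
          exact congrArg (fun p : EuclideanSpace ℝ (Fin 2) => p 0) hp1
        · right
          exact congrArg (fun p : EuclideanSpace ℝ (Fin 2) => p 0) hp1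
      · rcases hp2 with hp2 | hp2
        · left
          exact congrArg (fun p : EuclideanSpace ℝ (Fin 2) => p 0) hp2
        · right
          exact congrArg (fun p : EuclideanSpace ℝ (Fin 2) => p 0) hp2
    · rintro h p ⟨hp1, hp2⟩
      obtain ⟨⟨h1, h2⟩, h3⟩ := (mem_seg hab p).1 hp1
      obtain ⟨⟨h4, h5⟩, h6⟩ := (mem_seg hcd p).1 hp2
      obtain ⟨h7, h8⟩ := h (p 0) h4 h2 h5 (h3.symm.trans h6)
      have e : ∀ q0 q1 : ℝ, p 0 = q0 → p 1 = q1 → p = !₂[q0, q1] := by
        intro q0 q1 e0 e1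
        ext i
        fin_cases i
        · simpa using e0
        · simpa using e1
      constructor
      · rcases h7 with h7 | h7
        · left
          exact e _ _ h7 (by rw [h3, h7]; exact fa)
        · right
          exact e _ _ h7 (by rw [h3, h7]; exact fb)
      · rcases h8 with h8 | h8
        · left
          exact e _ _ h8 (by rw [h6, h8]; exact gc)
        · right
          exact e _ _ h8 (by rw [h6, h8]; exact gd)
  rw [hsub]
  have hcr : Cr x τ a b c d ↔
      ((((x c < x a ∧ x a < x d) ∧ (τ a < τ c ∨ τ a < τ d)) ∨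
        ((x c < x b ∧ x b < x d) ∧ (τ b < τ c ∨ τ b < τ d))) ∧
       (((x a < x c ∧ x c < x b) ∧ (τ c < τ a ∨ τ c < τ b)) ∨
        ((x a < x d ∧ x d < x b) ∧ (τ d < τ a ∨ τ d < τ b)))) ∨
      (((x a < x c ∧ x c < x b) ∧ (τ c < τ a ∨ τ c < τ b)) ∧
        ((x a < x d ∧ x d < x b) ∧ (τ a < τ d ∧ τ b < τ d))) ∨
      (((x a < x c ∧ x c < x b) ∧ (τ a < τ c ∧ τ b < τ c)) ∧
        ((x a < x d ∧ x d < x b) ∧ (τ d < τ a ∨ τ d < τ b))) ∨
      (((x c < x a ∧ x a < x d) ∧ (τ a < τ c ∨ τ a < τ d)) ∧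
        ((x c < x b ∧ x b < x d) ∧ (τ c < τ b ∧ τ d < τ b))) ∨
      (((x c < x a ∧ x a < x d) ∧ (τ c < τ a ∧ τ d < τ a)) ∧
        ((x c < x b ∧ x b < x d) ∧ (τ b < τ c ∨ τ b < τ d))) := by
    simp only [Cr, Und, Ovr, btw_iff hab, btw_iff hcd]
  have nca : ¬ x c < x a := not_lt.2 hac
  rw [hcr]
  rcases lt_trichotomy (x b) (x c) with h1 | h1 | h1
  · have e1 : ¬ x c < x b := not_lt.2 h1.le
    exact iff_of_true (fun t h2 h3 h4 h5 => absurd (h1.trans_le h2) (not_lt.2 h3))
      (by simp [nca, e1])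
  · have e1 : ¬ x c < x b := not_lt.2 h1.le
    exact iff_of_true (fun t h2 h3 h4 h5 => by
      have : t = x b := le_antisymm h3 (by rw [h1]; exact h2)
      exact ⟨Or.inr this, Or.inl (this.trans h1)⟩) (by simp [nca, h1])
  · rcases hac.eq_or_lt with h2 | h2
    · have hac' : a = c := hx h2
      subst hac'
      rcases lt_trichotomy (x b) (x d) with h3 | h3 | h3
      · have hw : f (x b) ≠ g (x b) := by
          rw [fb]
          rcases tri a d b hab h3 with h4 | h4
          · exact (hU a d b hab h3 h4).ne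
          · exact (hO a d b hab h3 h4).ne'
        have e2 : ¬ x d < x b := not_lt.2 h3.le
        refine iff_of_true (fun t h4 h5 h6 h7 => ?_) (by simp [e2])
        have := one_zero af ag (fa.trans gc.symm) hw h7
        exact ⟨Or.inl this, Or.inl this⟩
      · exact absurd (by rw [hx h3]) hne
      · have hw : f (x d) ≠ g (x d) := by
          rw [gd]
          rcases tri a b d hcd h3 with h4 | h4
          · exact (hU a b d hcd h3 h4).ne'
          · exact (hO a b d hcd h3 h4).ne
        have e2 : ¬ x b < x d := not_lt.2 h3.le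
        refine iff_of_true (fun t h4 h5 h6 h7 => ?_) (by simp [e2])
        have := one_zero af ag (fa.trans gc.symm) hw h7
        exact ⟨Or.inl this, Or.inl this⟩
    · rcases lt_trichotomy (x b) (x d) with h3 | h3 | h3
      · have e2 : ¬ x d < x b := not_lt.2 h3.le
        rcases tri a b c h2 h1 with h4 | h4
        · rcases tri c d b h1 h3 with h5 | h5
          · -- crossing
            refine iff_of_false (fun h => ?_) (not_not_intro (Or.inl
              ⟨Or.inr ⟨⟨h1, h3⟩, h5⟩, Or.inl ⟨⟨h2, h1⟩, h4⟩⟩))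
            obtain ⟨t, ht1, ht2, ht3⟩ := zero_of af ag h1 (Or.inr ⟨by
              rw [gc]
              exact hU a b c h2 h1 h4, by
              rw [fb]
              exact hU c d b h1 h3 h5⟩)
            obtain ⟨h6 | h6, -⟩ := h t ht1.le ht2.le (ht2.le.trans h3.le) ht3
            · linarith
            · linarith
          · refine iff_of_true (fun t h6 h7 h8 h9 => absurd h9 (no_zero af ag h6 h7 (Or.inr ⟨by
              rw [gc]
              exact hU a b c h2 h1 h4, by
              rw [fb]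
              exact hO c d b h1 h3 h5⟩))) ?_
            have e3 : ¬ (τ b < τ c ∨ τ b < τ d) := by omega
            simp [nca, e2, e3]
        · rcases tri c d b h1 h3 with h5 | h5
          · refine iff_of_true (fun t h6 h7 h8 h9 => absurd h9 (no_zero af ag h6 h7 (Or.inl ⟨by
              rw [gc]
              exact hO a b c h2 h1 h4, by
              rw [fb]
              exact hU c d b h1 h3 h5⟩))) ?_
            have e3 : ¬ (τ c < τ a ∨ τ c < τ b) := by omega
            simp [nca, e2, e3]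
          · omega
      · have hbd : b = d := hx h3
        subst hbd
        have hw : f (x c) ≠ g (x c) := by
          rw [gc]
          rcases tri a b c h2 h1 with h4 | h4
          · exact (hU a b c h2 h1 h4).ne'
          · exact (hO a b c h2 h1 h4).ne
        refine iff_of_true (fun t h4 h5 h6 h7 => ?_) (by simp [nca])
        have := one_zero af ag (fb.trans gd.symm) hw h7
        exact ⟨Or.inr this, Or.inr this⟩
      · have e2 : ¬ x b < x d := not_lt.2 h3.le
        have h2' : x a < x d := h2.trans hcd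
        rcases tri a b c h2 h1 with h4 | h4
        · rcases tri a b d h2' h3 with h5 | h5
          · refine iff_of_true (fun t h6 h7 h8 h9 => absurd h9 (no_zero af ag h6 h8 (Or.inr ⟨by
              rw [gc]
              exact hU a b c h2 h1 h4, by
              rw [gd]
              exact hU a b d h2' h3 h5⟩))) ?_
            have e3 : ¬ (τ a < τ c ∧ τ b < τ c) := by omega
            have e4 : ¬ (τ a < τ d ∧ τ b < τ d) := by omega
            simp [nca, e2, e3, e4]
          · refine iff_of_false (fun h => ?_) (not_not_intro (Or.inr (Or.inl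
              ⟨⟨⟨h2, h1⟩, h4⟩, ⟨⟨h2', h3⟩, h5⟩⟩)))
            obtain ⟨t, ht1, ht2, ht3⟩ := zero_of af ag hcd (Or.inr ⟨by
              rw [gc]
              exact hU a b c h2 h1 h4, by
              rw [gd]
              exact hO a b d h2' h3 h5⟩)
            obtain ⟨-, h6 | h6⟩ := h t ht1.le (ht2.le.trans h3.le) ht2.le ht3
            · linarith
            · linarith
        · rcases tri a b d h2' h3 with h5 | h5
          · refine iff_of_false (fun h => ?_) (not_not_intro (Or.inr (Or.inr (Or.inl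
              ⟨⟨⟨h2, h1⟩, h4⟩, ⟨⟨h2', h3⟩, h5⟩⟩))))
            obtain ⟨t, ht1, ht2, ht3⟩ := zero_of af ag hcd (Or.inl ⟨by
              rw [gc]
              exact hO a b c h2 h1 h4, by
              rw [gd]
              exact hU a b d h2' h3 h5⟩)
            obtain ⟨-, h6 | h6⟩ := h t ht1.le (ht2.le.trans h3.le) ht2.le ht3
            · linarith
            · linarith
          · refine iff_of_true (fun t h6 h7 h8 h9 => absurd h9 (no_zero af ag h6 h8 (Or.inl ⟨by
              rw [gc]
              exact hO a b c h2 h1 h4, by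
              rw [gd]
              exact hO a b d h2' h3 h5⟩))) ?_
            have e3 : ¬ (τ c < τ a ∨ τ c < τ b) := by omega
            have e4 : ¬ (τ d < τ a ∨ τ d < τ b) := by omega
            simp [nca, e2, e3, e4]

/-- If `M` is large, no segment contains a third point, and two different segments meet at most in
common endpoints if and only if they do not cross in the sense of `Cr`. -/
theorem geo {n : ℕ} (x : Fin n → ℝ) (hx : Function.Injective x) (τ : Fin n → ℕ)
    (hτ : Function.Injective τ) :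
    ∃ M : ℝ, 1 < M ∧ ∀ ε : ℝ, 0 < ε →
      (∀ a b w, w ≠ a → w ≠ b → pt x τ M ε w ∉ segment ℝ (pt x τ M ε a) (pt x τ M ε b)) ∧
      (∀ a b c d, a ≠ b → c ≠ d → s(a, b) ≠ s(c, d) →
        (segment ℝ (pt x τ M ε a) (pt x τ M ε b) ∩ segment ℝ (pt x τ M ε c) (pt x τ M ε d) ⊆
          ({pt x τ M ε a, pt x τ M ε b} ∩ {pt x τ M ε c, pt x τ M ε d} :
            Set (EuclideanSpace ℝ (Fin 2))) ↔ ¬ Cr x τ a b c d)) := by
  classical
  set D : ℝ := ∑ i, ∑ j, |x i - x j| with hD
  set S : ℝ := ∑ i, ∑ j, |x i - x j|⁻¹ with hS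
  have hDn : 0 ≤ D := Finset.sum_nonneg fun i _ => Finset.sum_nonneg fun j _ => abs_nonneg _
  have hSn : 0 ≤ S :=
    Finset.sum_nonneg fun i _ => Finset.sum_nonneg fun j _ => inv_nonneg.2 (abs_nonneg _)
  have hDl : ∀ i j, |x i - x j| ≤ D := fun i j =>
    (Finset.single_le_sum (f := fun j => |x i - x j|) (fun j _ => abs_nonneg _)
      (Finset.mem_univ j)).trans (Finset.single_le_sum (f := fun i => ∑ j, |x i - x j|)
        (fun i _ => Finset.sum_nonneg fun j _ => abs_nonneg _) (Finset.mem_univ i))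
  have hSl : ∀ i j, |x i - x j|⁻¹ ≤ S := fun i j =>
    (Finset.single_le_sum (f := fun j => |x i - x j|⁻¹) (fun j _ => inv_nonneg.2 (abs_nonneg _))
      (Finset.mem_univ j)).trans (Finset.single_le_sum (f := fun i => ∑ j, |x i - x j|⁻¹)
        (fun i _ => Finset.sum_nonneg fun j _ => inv_nonneg.2 (abs_nonneg _))
        (Finset.mem_univ i))
  refine ⟨D * S + 2, by nlinarith [mul_nonneg hDn hSn], fun ε hε => ?_⟩
  set M : ℝ := D * S + 2 with hM
  have hM1 : 1 < M := by nlinarith [mul_nonneg hDn hSn]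
  have hM0 : 0 < M := by linarith
  have hbig : ∀ i j k l, x i < x j → x l - x k < M * (x j - x i) := by
    intro i j k l hij
    have h1 : 0 < x j - x i := sub_pos.2 hij
    have h2 : x l - x k ≤ D := (le_abs_self _).trans (hDl l k)
    have h3 : 1 ≤ S * (x j - x i) := by
      have h4 := hSl j i
      rw [abs_of_pos h1] at h4
      calc (1 : ℝ) = (x j - x i)⁻¹ * (x j - x i) := (inv_mul_cancel₀ h1.ne').symm
        _ ≤ S * (x j - x i) := mul_le_mul_of_nonneg_right h4 h1.le
    calc x l - x k ≤ D * 1 := by linarith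
      _ ≤ D * (S * (x j - x i)) := mul_le_mul_of_nonneg_left h3 hDn
      _ < M * (x j - x i) := by
        rw [hM]
        nlinarith
  set Y : Fin n → ℝ := fun v => ε * M ^ τ v with hY
  have hYp : ∀ v, 0 < Y v := fun v => mul_pos hε (pow_pos hM0 _)
  have hYl : ∀ u v, τ u < τ v → M * Y u ≤ Y v := by
    intro u v h
    calc M * Y u = ε * M ^ (τ u + 1) := by
          rw [hY]
          ring
      _ ≤ ε * M ^ τ v := mul_le_mul_of_nonneg_left (pow_le_pow_right₀ hM1.le h) hε.le
  have hU : ∀ a b m, x a < x m → x m < x b → (τ m < τ a ∨ τ m < τ b) →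
      Y m < lin (x a) (Y a) (x b) (Y b) (x m) := by
    intro a b m h1 h2 h3
    rw [lin, lt_div_iff₀ (sub_pos.2 (h1.trans h2))]
    have p1 : 0 < x m - x a := sub_pos.2 h1
    have p2 : 0 < x b - x m := sub_pos.2 h2
    rcases h3 with h3 | h3
    · have h4 := hYl m a h3
      have h5 := hbig m b a b h2
      have h6 : Y m * (x b - x a) < Y m * (M * (x b - x m)) :=
        mul_lt_mul_of_pos_left h5 (hYp m)
      have h7 : M * Y m * (x b - x m) ≤ Y a * (x b - x m) :=
        mul_le_mul_of_nonneg_right h4 p2.le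
      have h8 : 0 < Y b * (x m - x a) := mul_pos (hYp b) p1
      linarith
    · have h4 := hYl m b h3
      have h5 := hbig a m a b h1
      have h6 : Y m * (x b - x a) < Y m * (M * (x m - x a)) :=
        mul_lt_mul_of_pos_left h5 (hYp m)
      have h7 : M * Y m * (x m - x a) ≤ Y b * (x m - x a) :=
        mul_le_mul_of_nonneg_right h4 p1.le
      have h8 : 0 < Y a * (x b - x m) := mul_pos (hYp a) p2
      linarith
  have hO : ∀ a b m, x a < x m → x m < x b → τ a < τ m ∧ τ b < τ m →
      lin (x a) (Y a) (x b) (Y b) (x m) < Y m := by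
    intro a b m h1 h2 h3
    rw [lin, div_lt_iff₀ (sub_pos.2 (h1.trans h2))]
    have p1 : 0 < x m - x a := sub_pos.2 h1
    have p2 : 0 < x b - x m := sub_pos.2 h2
    have h4 : Y a < Y m := lt_of_lt_of_le (by nlinarith [hYp a]) (hYl a m h3.1)
    have h5 : Y b < Y m := lt_of_lt_of_le (by nlinarith [hYp b]) (hYl b m h3.2)
    have h6 : Y a * (x b - x m) < Y m * (x b - x m) := mul_lt_mul_of_pos_right h4 p2
    have h7 : Y b * (x m - x a) < Y m * (x m - x a) := mul_lt_mul_of_pos_right h5 p1
    linarith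
  have hpt : ∀ v, pt x τ M ε v = !₂[x v, Y v] := fun v => rfl
  simp only [hpt]
  constructor
  · -- no three points on a segment
    have main : ∀ a b w, x a < x b → w ≠ a → w ≠ b →
        (!₂[x w, Y w] : EuclideanSpace ℝ (Fin 2)) ∉ segment ℝ !₂[x a, Y a] !₂[x b, Y b] := by
      intro a b w hab hwa hwb hmem
      obtain ⟨⟨h1, h2⟩, h3⟩ := (mem_seg hab _).1 hmem
      have h1' : x a < x w := lt_of_le_of_ne h1 fun h => hwa (hx h).symm
      have h2' : x w < x b := lt_of_le_of_ne h2 fun h => hwb (hx h)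
      have h3' : Y w = lin (x a) (Y a) (x b) (Y b) (x w) := h3
      by_cases h4 : τ w < τ a ∨ τ w < τ b
      · exact absurd h3' (hU a b w h1' h2' h4).ne
      · have h5 : τ w ≠ τ a := fun h => hwa (hτ h)
        have h6 : τ w ≠ τ b := fun h => hwb (hτ h)
        exact absurd h3' (hO a b w h1' h2' (by omega)).ne'
    intro a b w hwa hwb
    rcases lt_trichotomy (x a) (x b) with h | h | h
    · exact main a b w h hwa hwb
    · have hab : a = b := hx h
      subst hab
      rw [segment_same]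
      intro hmem
      have h1 : x w = x a :=
        congrArg (fun p : EuclideanSpace ℝ (Fin 2) => p 0) (Set.mem_singleton_iff.1 hmem)
      exact hwa (hx h1)
    · rw [segment_symm]
      exact main b a w h hwb hwa
  · -- crossings
    have m1 : ∀ a b c d, x a < x b → x c < x d → s(a, b) ≠ s(c, d) →
        ((segment ℝ (!₂[x a, Y a] : EuclideanSpace ℝ (Fin 2)) !₂[x b, Y b] ∩
          segment ℝ (!₂[x c, Y c] : EuclideanSpace ℝ (Fin 2)) !₂[x d, Y d] ⊆
        (({!₂[x a, Y a], !₂[x b, Y b]} : Set (EuclideanSpace ℝ (Fin 2))) ∩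
          {!₂[x c, Y c], !₂[x d, Y d]})) ↔ ¬ Cr x τ a b c d) := by
      intro a b c d hab hcd hne
      rcases le_total (x a) (x c) with h | h
      · exact meet x hx τ hτ Y hU hO a b c d hab hcd h hne
      · rw [Set.inter_comm, Set.inter_comm ({_, _} : Set (EuclideanSpace ℝ (Fin 2))),
          ← cr_swap]
        exact meet x hx τ hτ Y hU hO c d a b hcd hab h hne.symm
    intro a b c d hab hcd hne
    rcases lt_or_gt_of_ne (fun h => hab (hx h) : x a ≠ x b) with h1 | h1
    · rcases lt_or_gt_of_ne (fun h => hcd (hx h) : x c ≠ x d) with h2 | h2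
      · exact m1 a b c d h1 h2 hne
      · rw [segment_symm ℝ (!₂[x c, Y c] : EuclideanSpace ℝ (Fin 2)),
          Set.pair_comm (!₂[x c, Y c] : EuclideanSpace ℝ (Fin 2)), ← cr_right]
        exact m1 a b d c h1 h2 (by rwa [Sym2.eq_swap (a := d)])
    · rcases lt_or_gt_of_ne (fun h => hcd (hx h) : x c ≠ x d) with h2 | h2
      · rw [segment_symm ℝ (!₂[x a, Y a] : EuclideanSpace ℝ (Fin 2)),
          Set.pair_comm (!₂[x a, Y a] : EuclideanSpace ℝ (Fin 2)), ← cr_left]
        exact m1 b a c d h1 h2 (by rwa [Sym2.eq_swap (a := b)])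
      · rw [segment_symm ℝ (!₂[x c, Y c] : EuclideanSpace ℝ (Fin 2)),
          Set.pair_comm (!₂[x c, Y c] : EuclideanSpace ℝ (Fin 2)),
          segment_symm ℝ (!₂[x a, Y a] : EuclideanSpace ℝ (Fin 2)),
          Set.pair_comm (!₂[x a, Y a] : EuclideanSpace ℝ (Fin 2)), ← cr_right, ← cr_left]
        exact m1 b a d c h1 h2 (by rwa [Sym2.eq_swap (a := b), Sym2.eq_swap (a := d)])

end Pool.Agent.MP7a5e6cPO
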